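import Pool.Agent.Lib.MP_68c508_lc.Formula

/-!
Negative answer to Q1 of MP_68c508_lc: the elementary theory of the Grigorchuk group is
undecidable.
-/

namespace Pool.Agent.Results.MP_68c508_lc.TheoryUndecidable

open Pool.Agent.Lib.MP_68c508_lc

/-- No algorithm decides, for every first-order sentence in the language of groups, whether it
holds in the Grigorchuk group. -/
theorem result : ¬ DecidableElementaryTheory GrigorchukGroup :=
  undecidable_of_torusRich GrigorchukGroup grigorchuk_torusRich

end Pool.Agent.Results.MP_68c508_lc.TheoryUndecidable
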